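import Pool.Agent.Lib_helper59.Lang.Defs

/-! Block H2 of MP_45e720_ag: a nonconstant holomorphic map from a complex torus. -/

open Complex Metric Function Filter Topology

namespace LangFC

namespace BlockH2

/-- the monomial curve -/
def vec {n : ℕ} (a : Fin (n + 1) → ℂ) (w : Fin (n + 1) → ℕ) (W : ℕ) (s t : ℂ) :
    Fin (n + 1) → ℂ := fun i => s ^ w i * t ^ (W - w i) * a i

lemma vec_ne_zero {n : ℕ} {a : Fin (n + 1) → ℂ} {w : Fin (n + 1) → ℕ} {W : ℕ}
    (h0 : ∃ i, a i ≠ 0 ∧ w i = 0) (h1 : ∃ i, a i ≠ 0 ∧ w i = W) {s t : ℂ}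
    (hst : s ≠ 0 ∨ t ≠ 0) : vec a w W s t ≠ 0 := by
  intro h
  rcases hst with hs | ht
  · obtain ⟨i, hai, hwi⟩ := h1
    have := congrFun h i
    simp only [vec, hwi, Nat.sub_self, pow_zero, mul_one, Pi.zero_apply] at this
    exact mul_ne_zero (pow_ne_zero _ hs) hai this
  · obtain ⟨i, hai, hwi⟩ := h0
    have := congrFun h i
    simp only [vec, hwi, Nat.sub_zero, pow_zero, one_mul, Pi.zero_apply] at this
    exact mul_ne_zero (pow_ne_zero _ ht) hai this

lemma vec_smul {n : ℕ} {a : Fin (n + 1) → ℂ} {w : Fin (n + 1) → ℕ} {W : ℕ}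
    (hw : ∀ i, w i ≤ W) (r s t : ℂ) :
    vec a w W (r * s) (r * t) = r ^ W • vec a w W s t := by
  funext i
  simp only [vec, Pi.smul_apply, smul_eq_mul, mul_pow]
  have : r ^ W = r ^ w i * r ^ (W - w i) := by
    rw [← pow_add, Nat.add_sub_cancel' (hw i)]
  rw [this]; ring

/-- first coordinate of the map to the line -/
noncomputable def cs (L : PeriodPair) (z : ℂ) : ℂ := by
  classical exact if z ∈ L.lattice then 1 else L.weierstrassP z

/-- second coordinate of the map to the line -/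
noncomputable def ct (L : PeriodPair) (z : ℂ) : ℂ := by
  classical exact if z ∈ L.lattice then 0 else 1

lemma cs_of_mem {L : PeriodPair} {z : ℂ} (h : z ∈ L.lattice) : cs L z = 1 := by
  simp only [cs, if_pos h]
lemma ct_of_mem {L : PeriodPair} {z : ℂ} (h : z ∈ L.lattice) : ct L z = 0 := by
  simp only [ct, if_pos h]
lemma cs_of_notMem {L : PeriodPair} {z : ℂ} (h : z ∉ L.lattice) :
    cs L z = L.weierstrassP z := by
  simp only [cs, if_neg h]
lemma ct_of_notMem {L : PeriodPair} {z : ℂ} (h : z ∉ L.lattice) : ct L z = 1 := by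
  simp only [ct, if_neg h]

lemma cs_ct (L : PeriodPair) (z : ℂ) : cs L z ≠ 0 ∨ ct L z ≠ 0 := by
  by_cases h : z ∈ L.lattice
  · left; rw [cs_of_mem h]; exact one_ne_zero
  · right; rw [ct_of_notMem h]; exact one_ne_zero

lemma mk_congr {n : ℕ} {v w : Fin (n + 1) → ℂ} (h : v = w) (hv : v ≠ 0) (hw : w ≠ 0) :
    Projectivization.mk ℂ v hv = Projectivization.mk ℂ w hw := by
  subst h; rfl

lemma mk_smul {n : ℕ} {v : Fin (n + 1) → ℂ} {c : ℂ} (hv : v ≠ 0)
    (hcv : c • v ≠ 0) :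
    Projectivization.mk ℂ (c • v) hcv = Projectivization.mk ℂ v hv := by
  rw [Projectivization.mk_eq_mk_iff']
  exact ⟨c, rfl⟩

end BlockH2

open BlockH2 in
/-- general version: the composition of the Weierstrass function with a holomorphic homogeneous
map from the projective line -/
theorem exists_torus_general {n : ℕ} (X : Set (Projectivization ℂ (Fin (n + 1) → ℂ)))
    (P : ℂ → ℂ → Fin (n + 1) → ℂ) (W : ℕ)
    (hP : Differentiable ℂ (fun x : ℂ × ℂ => P x.1 x.2))
    (hhom : ∀ c s t, P (c * s) (c * t) = c ^ W • P s t)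
    (hne : ∀ s t, (s ≠ 0 ∨ t ≠ 0) → P s t ≠ 0)
    (hX : ∀ s t, ∀ h : P s t ≠ 0, Projectivization.mk ℂ (P s t) h ∈ X)
    (hnc : ∀ (s : ℂ) (h : P s 1 ≠ 0) (h' : P 1 0 ≠ 0),
      Projectivization.mk ℂ (P s 1) h ≠ Projectivization.mk ℂ (P 1 0) h')
    (L : PeriodPair) :
    ∃ φ : ℂ → Projectivization ℂ (Fin (n + 1) → ℂ), IsHolo φ ∧ (∀ z, φ z ∈ X) ∧
      (∀ l ∈ L.lattice, ∀ z, φ (z + l) = φ z) ∧ ∃ z z', φ z ≠ φ z' := by
  have hne' : ∀ z, P (cs L z) (ct L z) ≠ 0 := fun z => hne _ _ (cs_ct L z)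
  refine ⟨fun z => Projectivization.mk ℂ (P (cs L z) (ct L z)) (hne' z), ?_, ?_, ?_, ?_⟩
  · -- holomorphic
    intro z0
    by_cases hz0 : z0 ∈ L.lattice
    · -- at a lattice point
      set g : ℂ → ℂ := fun z => (z - z0) ^ 2 * L.weierstrassPExcept z0 z + 1 -
        (z - z0) ^ 2 / z0 ^ 2 with hg
      have hg1 : ∀ z, (if z = z0 then 1 else (z - z0) ^ 2 * L.weierstrassP z) = g z :=
        fun z => L.ite_eq_one_sub_sq_mul_weierstrassP z0 hz0 z
      have hgan : AnalyticAt ℂ g z0 := by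
        have h1 : AnalyticAt ℂ (L.weierstrassPExcept z0) z0 :=
          L.analyticOnNhd_weierstrassPExcept z0 z0 (by simp)
        have h2 : AnalyticAt ℂ (fun z : ℂ => (z - z0)) z0 := analyticAt_id.sub analyticAt_const
        have h3 : AnalyticAt ℂ (fun z : ℂ => (z - z0) ^ 2 / z0 ^ 2) z0 := by
          simp only [div_eq_mul_inv]
          exact (h2.pow 2).mul analyticAt_const
        exact (((h2.pow 2).mul h1).add analyticAt_const).sub h3
      have hgz0 : g z0 = 1 := by rw [← hg1 z0, if_pos rfl]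
      have hgne : ∀ᶠ z in 𝓝 z0, g z ≠ 0 := by
        apply hgan.continuousAt.eventually_ne
        rw [hgz0]; exact one_ne_zero
      refine ⟨fun z => P (g z) ((z - z0) ^ 2), ?_, ?_⟩
      · filter_upwards [hgan.eventually_analyticAt] with z hz
        have h1 : DifferentiableAt ℂ (fun z => (g z, (z - z0) ^ 2)) z := by
          have := hz.differentiableAt
          fun_prop
        exact (hP (g z, (z - z0) ^ 2)).comp z h1
      · filter_upwards [hgne, L.compl_lattice_sdiff_singleton_mem_nhds z0] with z hz1 hz2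
        have hne1 : P (g z) ((z - z0) ^ 2) ≠ 0 := hne _ _ (Or.inl hz1)
        refine ⟨hne1, ?_⟩
        by_cases hzz : z = z0
        · subst hzz
          apply mk_congr
          rw [cs_of_mem hz0, ct_of_mem hz0, hgz0, sub_self, zero_pow two_ne_zero]
        · have hzL : z ∉ L.lattice := fun h => hz2 ⟨h, hzz⟩
          have h2 : P (g z) ((z - z0) ^ 2) =
              ((z - z0) ^ 2) ^ W • P (cs L z) (ct L z) := by
            rw [← hhom, cs_of_notMem hzL, ct_of_notMem hzL, mul_one, ← hg1 z,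
              if_neg hzz]
          rw [mk_congr h2 hne1 (h2 ▸ hne1)]
          rw [mk_smul]
    · have hopen : ∀ᶠ z in 𝓝 z0, z ∉ L.lattice :=
        L.isClosed_lattice.isOpen_compl.mem_nhds hz0
      refine ⟨fun z => P (L.weierstrassP z) 1, ?_, ?_⟩
      · filter_upwards [hopen] with z hz
        have h1 : DifferentiableAt ℂ L.weierstrassP z :=
          (L.analyticOnNhd_weierstrassP z hz).differentiableAt
        have h2 : DifferentiableAt ℂ (fun z => (L.weierstrassP z, (1 : ℂ))) z := by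
          fun_prop
        exact (hP (L.weierstrassP z, 1)).comp z h2
      · filter_upwards [hopen] with z hz
        refine ⟨hne _ _ (Or.inr one_ne_zero), ?_⟩
        apply mk_congr
        rw [cs_of_notMem hz, ct_of_notMem hz]
  · intro z
    exact hX (cs L z) (ct L z) (hne' z)
  · intro l hl z
    apply mk_congr
    by_cases hz : z ∈ L.lattice
    · have hz' : z + l ∈ L.lattice := add_mem hz hl
      rw [cs_of_mem hz, cs_of_mem hz', ct_of_mem hz, ct_of_mem hz']
    · have hz' : z + l ∉ L.lattice := by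
        intro h
        apply hz
        have := sub_mem h hl
        simpa using this
      rw [cs_of_notMem hz, cs_of_notMem hz', ct_of_notMem hz, ct_of_notMem hz']
      rw [L.weierstrassP_add_coe z ⟨l, hl⟩]
  · refine ⟨L.ω₁ / 2, 0, ?_⟩
    have hz0 : (0 : ℂ) ∈ L.lattice := zero_mem _
    have hz1 := L.ω₁_div_two_notMem_lattice
    have h0 : P 1 0 ≠ 0 := hne _ _ (Or.inl one_ne_zero)
    have h1 : P (L.weierstrassP (L.ω₁ / 2)) 1 ≠ 0 := hne _ _ (Or.inr one_ne_zero)
    have e0 : P (cs L 0) (ct L 0) = P 1 0 := by rw [cs_of_mem hz0, ct_of_mem hz0]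
    have e1 : P (cs L (L.ω₁ / 2)) (ct L (L.ω₁ / 2)) = P (L.weierstrassP (L.ω₁ / 2)) 1 := by
      rw [cs_of_notMem hz1, ct_of_notMem hz1]
    show Projectivization.mk ℂ (P (cs L (L.ω₁ / 2)) (ct L (L.ω₁ / 2))) (hne' _) ≠
      Projectivization.mk ℂ (P (cs L 0) (ct L 0)) (hne' _)
    rw [mk_congr e0 _ h0, mk_congr e1 _ h1]
    exact hnc _ _ _

open BlockH2 in
theorem exists_torus_proof {n : ℕ} (X : Set (Projectivization ℂ (Fin (n + 1) → ℂ)))
    (a : Fin (n + 1) → ℂ) (w : Fin (n + 1) → ℕ) (W : ℕ) (hW : 0 < W) (hw : ∀ i, w i ≤ W)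
    (h0 : ∃ i, a i ≠ 0 ∧ w i = 0) (h1 : ∃ i, a i ≠ 0 ∧ w i = W)
    (hX : ∀ s t : ℂ, ∀ h : (fun i => s ^ w i * t ^ (W - w i) * a i) ≠ 0,
      Projectivization.mk ℂ (fun i => s ^ w i * t ^ (W - w i) * a i) h ∈ X)
    (L : PeriodPair) :
    ∃ φ : ℂ → Projectivization ℂ (Fin (n + 1) → ℂ), IsHolo φ ∧ (∀ z, φ z ∈ X) ∧
      (∀ l ∈ L.lattice, ∀ z, φ (z + l) = φ z) ∧ ∃ z z', φ z ≠ φ z' := by
  refine exists_torus_general X (vec a w W) W ?_ (vec_smul hw)
    (fun s t h => vec_ne_zero h0 h1 h) hX ?_ L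
  · rw [differentiable_pi]
    intro i
    simp only [vec]
    fun_prop
  · intro s h h' heq
    rw [Projectivization.mk_eq_mk_iff'] at heq
    obtain ⟨c, hc⟩ := heq
    obtain ⟨i, hai, hwi⟩ := h0
    obtain ⟨j, haj, hwj⟩ := h1
    have hi := congrFun hc i
    simp only [vec, hwi, Pi.smul_apply, smul_eq_mul, pow_zero, one_pow, one_mul,
      Nat.sub_zero, zero_pow hW.ne', zero_mul, mul_zero] at hi
    exact hai hi.symm

/-- the line version -/
theorem exists_torus_line {n : ℕ} (X : Set (Projectivization ℂ (Fin (n + 1) → ℂ)))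
    (v w : Fin (n + 1) → ℂ) (hli : LinearIndependent ℂ ![v, w])
    (hX : ∀ s t : ℂ, ∀ h : s • v + t • w ≠ 0, Projectivization.mk ℂ (s • v + t • w) h ∈ X)
    (L : PeriodPair) :
    ∃ φ : ℂ → Projectivization ℂ (Fin (n + 1) → ℂ), IsHolo φ ∧ (∀ z, φ z ∈ X) ∧
      (∀ l ∈ L.lattice, ∀ z, φ (z + l) = φ z) ∧ ∃ z z', φ z ≠ φ z' := by
  rw [LinearIndependent.pair_iff] at hli
  refine exists_torus_general X (fun s t => s • v + t • w) 1 (by fun_prop) ?_ ?_ hX ?_ L
  · intro c s t
    rw [pow_one, smul_add, smul_smul, smul_smul]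
  · intro s t hst h
    obtain ⟨h1, h2⟩ := hli s t h
    rcases hst with h3 | h3
    · exact h3 h1
    · exact h3 h2
  · intro s h h' heq
    rw [Projectivization.mk_eq_mk_iff'] at heq
    obtain ⟨c, hc⟩ := heq
    have h1 : (c * 1 - s) • v + (c * 0 - 1) • w = 0 := by
      simp only [smul_add, smul_smul] at hc
      rw [sub_smul, sub_smul]
      have : (c * 1) • v - s • v + ((c * 0) • w - (1 : ℂ) • w) =
        ((c * 1) • v + (c * 0) • w) - (s • v + (1 : ℂ) • w) := by abel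
      rw [this, hc, sub_self]
    have h2 := (hli _ _ h1).2
    simp at h2

end LangFC
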