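import Pool.Agent.Lib_helper59.Lang.Defs

/-! Block G of MP_45e720_ag: weights. -/

open Complex Metric Function MeromorphicOn Filter Topology

namespace LangFC

namespace BlockG

/-- same as `BorelCartan` of helper59 -/
def BC (k m : ℕ) : Prop :=
  ∀ (q : ℕ), q ≤ k → ∀ (G : Fin q → ℂ → ℂ) (_ : ∀ j, Nice (G j)) (c : Fin q → ℂ)
    (_ : ∃ j, c j ≠ 0) (_ : ∀ z, (∀ j, dv (G j) z = 0) → ∑ j, c j * G j z ^ m = 0),
    ∃ i j : Fin q, i ≠ j ∧ ∃ e : ℂ, e ≠ 0 ∧ ∀ z, (∀ j, dv (G j) z = 0) → G i z = e * G j z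

/-! ### good points -/

lemma dv_apply {f : ℂ → ℂ} (hf : Nice f) (z : ℂ) :
    dv f z = (meromorphicOrderAt f z).untop₀ :=
  MeromorphicOn.divisor_apply (fun z _ => hf.meromorphic z) (Set.mem_univ z)

lemma order_zero_of_dv {f : ℂ → ℂ} (hf : Nice f) {z : ℂ} (h : dv f z = 0) :
    meromorphicOrderAt f z = 0 := by
  rw [dv_apply hf] at h
  rcases WithTop.untop₀_eq_zero.1 h with h | h
  · exact h
  · exact absurd h (hf.ord z)

lemma analyticAt_of_dv {f : ℂ → ℂ} (hf : Nice f) {z : ℂ} (h : dv f z = 0) :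
    AnalyticAt ℂ f z :=
  (hf.nf z).meromorphicOrderAt_nonneg_iff_analyticAt.1 (order_zero_of_dv hf h).ge

lemma ne_zero_of_dv {f : ℂ → ℂ} (hf : Nice f) {z : ℂ} (h : dv f z = 0) :
    f z ≠ 0 :=
  (hf.nf z).meromorphicOrderAt_eq_zero_iff.1 (order_zero_of_dv hf h)

lemma dv_of_order {f : ℂ → ℂ} (hf : Nice f) {z : ℂ} (h : meromorphicOrderAt f z = 0) :
    dv f z = 0 := by
  rw [dv_apply hf, h]; rfl

lemma eventually_dv {f : ℂ → ℂ} (hf : Nice f) (z : ℂ) :
    ∀ᶠ y in 𝓝[≠] z, dv f y = 0 := by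
  have h1 := (meromorphicOrderAt_ne_top_iff_eventually_ne_zero (hf.meromorphic z)).1 (hf.ord z)
  have h2 : ∀ᶠ y in 𝓝[≠] z, AnalyticAt ℂ f y := by
    have := MeromorphicOn.eventually_analyticAt (f := f) (U := Set.univ)
      (fun z _ => hf.meromorphic z) (Set.mem_univ z)
    rwa [← Set.compl_eq_univ_sdiff] at this
  filter_upwards [h1, h2] with y hy1 hy2
  apply dv_of_order hf
  rw [(hf.nf y).meromorphicOrderAt_eq_zero_iff]
  exact hy1

lemma eventually_good {ι : Type*} (I : Finset ι) {u : ι → ℂ → ℂ} (hu : ∀ i ∈ I, Nice (u i))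
    (z : ℂ) : ∀ᶠ y in 𝓝[≠] z, ∀ i ∈ I, dv (u i) y = 0 := by
  rw [Filter.eventually_all_finset]
  intro i hi
  exact eventually_dv (hu i hi) z

lemma exists_good {ι : Type*} (I : Finset ι) {u : ι → ℂ → ℂ} (hu : ∀ i ∈ I, Nice (u i)) :
    ∃ z : ℂ, ∀ i ∈ I, dv (u i) z = 0 :=
  (eventually_good I hu 0).exists

/-- good points are stable under small perturbation -/
lemma eventually_nhds_good {ι : Type*} (I : Finset ι) {u : ι → ℂ → ℂ}
    (hu : ∀ i ∈ I, Nice (u i)) {z : ℂ} (hz : ∀ i ∈ I, dv (u i) z = 0) :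
    ∀ᶠ y in 𝓝 z, ∀ i ∈ I, dv (u i) y = 0 := by
  have h := eventually_good I hu z
  rw [eventually_nhdsWithin_iff] at h
  filter_upwards [h] with y hy
  by_cases hyz : y = z
  · subst hyz; exact hz
  · exact hy hyz

/-- the product with integer exponents, normalised -/
noncomputable def Mon {ι : Type*} (I : Finset ι) (u : ι → ℂ → ℂ) (α : ι → ℤ) : ℂ → ℂ :=
  toMeromorphicNFOn (fun z => ∏ i ∈ I, u i z ^ α i) Set.univ

lemma mero_prod {ι : Type*} (I : Finset ι) {u : ι → ℂ → ℂ} (hu : ∀ i ∈ I, Nice (u i))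
    (α : ι → ℤ) : MeromorphicOn (fun z => ∏ i ∈ I, u i z ^ α i) Set.univ := by
  intro z _
  apply MeromorphicAt.fun_prod
  intro i hi
  exact ((hu i hi).meromorphic z).fun_zpow (α i)

lemma nice_mon {ι : Type*} (I : Finset ι) {u : ι → ℂ → ℂ} (hu : ∀ i ∈ I, Nice (u i))
    (α : ι → ℤ) : Nice (Mon I u α) := by
  refine ⟨fun z => meromorphicNFOn_toMeromorphicNFOn _ _ (Set.mem_univ z), fun z => ?_⟩
  unfold Mon
  rw [meromorphicOrderAt_toMeromorphicNFOn (mero_prod I hu α) (Set.mem_univ z)]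
  rw [meromorphicOrderAt_ne_top_iff_eventually_ne_zero (mero_prod I hu α z (Set.mem_univ z))]
  filter_upwards [eventually_good I hu z] with y hy
  rw [Finset.prod_ne_zero_iff]
  intro i hi
  exact zpow_ne_zero _ (ne_zero_of_dv (hu i hi) (hy i hi))

lemma analytic_prod {ι : Type*} (I : Finset ι) {u : ι → ℂ → ℂ} (hu : ∀ i ∈ I, Nice (u i))
    (α : ι → ℤ) {z : ℂ} (hz : ∀ i ∈ I, dv (u i) z = 0) :
    AnalyticAt ℂ (fun z => ∏ i ∈ I, u i z ^ α i) z := by
  apply Finset.analyticAt_fun_prod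
  intro i hi
  exact (analyticAt_of_dv (hu i hi) (hz i hi)).fun_zpow (ne_zero_of_dv (hu i hi) (hz i hi))

lemma mon_apply {ι : Type*} (I : Finset ι) {u : ι → ℂ → ℂ} (hu : ∀ i ∈ I, Nice (u i))
    (α : ι → ℤ) {z : ℂ} (hz : ∀ i ∈ I, dv (u i) z = 0) :
    Mon I u α z = ∏ i ∈ I, u i z ^ α i := by
  unfold Mon
  rw [toMeromorphicNFOn_eq_toMeromorphicNFAt (mero_prod I hu α) (Set.mem_univ z)]
  rw [toMeromorphicNFAt_eq_self.2 (analytic_prod I hu α hz).meromorphicNFAt]

lemma dv_mon {ι : Type*} (I : Finset ι) {u : ι → ℂ → ℂ} (hu : ∀ i ∈ I, Nice (u i))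
    (α : ι → ℤ) {z : ℂ} (hz : ∀ i ∈ I, dv (u i) z = 0) :
    dv (Mon I u α) z = 0 := by
  apply dv_of_order (nice_mon I hu α)
  rw [((nice_mon I hu α).nf z).meromorphicOrderAt_eq_zero_iff, mon_apply I hu α hz,
    Finset.prod_ne_zero_iff]
  intro i hi
  exact zpow_ne_zero _ (ne_zero_of_dv (hu i hi) (hz i hi))

/-! ### the merging lemma -/

/-- continuity extension -/
lemma sum_extend {q : ℕ} {G : Fin q → ℂ → ℂ} (hG : ∀ j, Nice (G j)) (c : Fin q → ℂ) (m : ℕ)
    {P : ℂ → Prop} (hP : ∀ z, ∀ᶠ y in 𝓝[≠] z, P y)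
    (h : ∀ z, P z → ∑ j, c j * G j z ^ m = 0) {z : ℂ} (hz : ∀ j, dv (G j) z = 0) :
    ∑ j, c j * G j z ^ m = 0 := by
  have han : AnalyticAt ℂ (fun z => ∑ j, c j * G j z ^ m) z := by
    apply Finset.analyticAt_fun_sum
    intro j _
    exact analyticAt_const.mul ((analyticAt_of_dv (hG j) (hz j)).pow m)
  have h1 : ∀ᶠ y in 𝓝[≠] z, (fun z => ∑ j, c j * G j z ^ m) y = 0 := by
    filter_upwards [hP z] with y hy using h y hy
  exact (han.frequently_zero_iff_eventually_zero.1 h1.frequently).self_of_nhds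

lemma merge {ι : Type*} [DecidableEq ι] {k m : ℕ} (hBC : BC k m)
    (N : ι → ℂ → ℂ) (hN : ∀ a, Nice (N a)) (P : ℂ → Prop)
    (hP : ∀ z, ∀ᶠ y in 𝓝[≠] z, P y) (hPN : ∀ z, P z → ∀ a, dv (N a) z = 0)
    (f : ι → ℂ) : ∀ (r : ℕ) (A : Finset ι) (_ : A.card = r) (_ : A.card ≤ k) (c : ι → ℂ)
      (_ : ∀ a ∈ A, ∀ b ∈ A, (∃ e : ℂ, e ≠ 0 ∧ ∀ z, P z → N a z = e * N b z) → f a = f b)
      (_ : ∀ z, P z → ∑ a ∈ A, c a * N a z ^ m = 0),
      ∀ z, P z → ∑ a ∈ A, f a * (c a * N a z ^ m) = 0 := by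
  intro r
  induction r with
  | zero =>
    intro A hA _ c _ _ z _
    rw [Finset.card_eq_zero] at hA
    subst hA
    simp
  | succ r ih =>
    intro A hA hAk c hf hs z hz
    by_cases hc : ∀ a ∈ A, c a = 0
    · apply Finset.sum_eq_zero
      intro a ha
      rw [hc a ha]; ring
    push Not at hc
    obtain ⟨a0, ha0, hca0⟩ := hc
    let E : Fin A.card ≃ A := A.equivFin.symm
    have hsum : ∀ (g : ι → ℂ), ∑ j, g (E j) = ∑ a ∈ A, g a := by
      intro g
      rw [Equiv.sum_comp E (fun a : A => g a)]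
      exact Finset.sum_coe_sort A g
    obtain ⟨i, j, hij, e, he, hrel⟩ := hBC A.card hAk (fun j => N (E j)) (fun j => hN _)
      (fun j => c (E j)) ⟨E.symm ⟨a0, ha0⟩, by simpa using hca0⟩ (by
        intro z hz
        refine sum_extend (G := fun j => N (E j)) (fun j => hN _) (fun j => c (E j)) m hP ?_ hz
        intro y hy
        rw [hsum (fun a => c a * N a y ^ m)]
        exact hs y hy)
    set a : ι := (E i : ι) with ha
    set b : ι := (E j : ι) with hb
    have hab : a ≠ b := by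
      intro h
      apply hij
      apply E.injective
      exact Subtype.ext h
    have haA : a ∈ A := (E i).2
    have hbA : b ∈ A := (E j).2
    have hrel' : ∀ z, P z → N a z = e * N b z := fun z hz => hrel z (fun j => hPN z hz _)
    have hfab : f a = f b := hf a haA b hbA ⟨e, he, hrel'⟩
    let A' := A.erase a
    have hbA' : b ∈ A' := Finset.mem_erase.2 ⟨hab.symm, hbA⟩
    let c' : ι → ℂ := Function.update c b (c b + c a * e ^ m)
    have hsplit : ∀ (g : ι → ℂ) (z : ℂ), P z → g a = g b →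
        ∑ x ∈ A', g x * (c' x * N x z ^ m) = ∑ x ∈ A, g x * (c x * N x z ^ m) := by
      intro g z hz hg
      rw [← Finset.add_sum_erase A _ haA, ← Finset.add_sum_erase A' _ hbA',
        ← Finset.add_sum_erase (A.erase a) _ hbA']
      have h1 : ∑ x ∈ A'.erase b, g x * (c' x * N x z ^ m) =
          ∑ x ∈ A'.erase b, g x * (c x * N x z ^ m) := by
        apply Finset.sum_congr rfl
        intro x hx
        have : x ≠ b := Finset.ne_of_mem_erase hx
        simp only [c', Function.update_of_ne this]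
      rw [h1]
      simp only [c', Function.update_self]
      rw [hrel' z hz, hg]
      ring
    have hcard : A'.card = r := by
      rw [Finset.card_erase_of_mem haA, hA]; rfl
    have := ih A' hcard (by omega) c'
      (fun x hx y hy => hf x (Finset.mem_of_mem_erase hx) y (Finset.mem_of_mem_erase hy))
      (by
        intro z hz
        have := hsplit (fun _ => 1) z hz rfl
        simp only [one_mul] at this
        rw [this]
        exact hs z hz) z hz
    rw [hsplit f z hz hfab] at this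
    exact this

/-! ### a linear functional vanishing on a lattice -/

lemma exists_functional {ι : Type*} [Fintype ι] [DecidableEq ι] (P : AddSubgroup (ι → ℤ))
    (δ : ι → ℤ) (hδ : ∀ N : ℤ, N ≠ 0 → N • δ ∉ P) :
    ∃ w : ι → ℤ, (∀ γ ∈ P, ∑ i, w i * γ i = 0) ∧ ∑ i, w i * δ i ≠ 0 := by
  let V : Submodule ℚ (ι → ℚ) :=
    { carrier := {x | ∃ N : ℤ, N ≠ 0 ∧ ∃ γ ∈ P, ∀ i, (N : ℚ) * x i = (γ i : ℚ)}
      zero_mem' := ⟨1, one_ne_zero, 0, P.zero_mem, fun i => by simp⟩
      add_mem' := by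
        rintro x y ⟨N, hN, γ, hγ, hx⟩ ⟨N', hN', γ', hγ', hy⟩
        refine ⟨N * N', mul_ne_zero hN hN', N' • γ + N • γ',
          P.add_mem (P.zsmul_mem hγ _) (P.zsmul_mem hγ' _), fun i => ?_⟩
        have h1 := hx i
        have h2 := hy i
        simp only [Pi.add_apply, Pi.smul_apply, smul_eq_mul]
        push_cast
        rw [← h1, ← h2]
        ring
      smul_mem' := by
        rintro q x ⟨N, hN, γ, hγ, hx⟩
        refine ⟨q.den * N, mul_ne_zero (by exact_mod_cast q.den_ne_zero) hN, q.num • γ,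
          P.zsmul_mem hγ _, fun i => ?_⟩
        have h1 := hx i
        have h2 : (q.den : ℚ) * q = q.num := by
          rw [mul_comm]; exact Rat.mul_den_eq_num q
        simp only [Pi.smul_apply, smul_eq_mul]
        push_cast
        rw [← h1, ← h2]
        ring }
  have hδV : (fun i => (δ i : ℚ)) ∉ V := by
    rintro ⟨N, hN, γ, hγ, hx⟩
    apply hδ N hN
    have : N • δ = γ := by
      funext i
      have h1 : (N : ℚ) * (δ i : ℚ) = (γ i : ℚ) := hx i
      simp only [Pi.smul_apply, smul_eq_mul]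
      exact_mod_cast h1
    rw [this]; exact hγ
  obtain ⟨φ, hφ1, hφ2⟩ := Submodule.exists_le_ker_of_notMem hδV
  -- clear denominators
  have hφsum : ∀ x : ι → ℚ, φ x = ∑ i, φ (Pi.single i 1) * x i := by
    intro x
    conv_lhs => rw [← Finset.univ_sum_single x]
    rw [map_sum]
    apply Finset.sum_congr rfl
    intro i _
    have : Pi.single i (x i) = x i • (Pi.single i 1 : ι → ℚ) := by
      rw [← Pi.single_smul]; simp
    rw [this, map_smul, smul_eq_mul, mul_comm]
  let D : ℕ := ∏ i, (φ (Pi.single i 1)).den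
  have hD : D ≠ 0 := Finset.prod_ne_zero_iff.2 (fun i _ => (φ (Pi.single i 1)).den_ne_zero)
  have hw : ∀ i, ∃ a : ℤ, (a : ℚ) = D * φ (Pi.single i 1) := by
    intro i
    obtain ⟨e, he⟩ : (φ (Pi.single i 1)).den ∣ D := Finset.dvd_prod_of_mem _ (Finset.mem_univ i)
    refine ⟨(φ (Pi.single i 1)).num * e, ?_⟩
    push_cast
    rw [he]
    push_cast
    rw [← Rat.mul_den_eq_num (φ (Pi.single i 1))]
    ring
  choose w hw using hw
  have key : ∀ γ : ι → ℤ, ((∑ i, w i * γ i : ℤ) : ℚ) = D * φ (fun i => (γ i : ℚ)) := by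
    intro γ
    push_cast
    rw [hφsum, Finset.mul_sum]
    apply Finset.sum_congr rfl
    intro i _
    rw [hw]; ring
  refine ⟨w, fun γ hγ => ?_, fun h => ?_⟩
  · have h1 : (fun i => (γ i : ℚ)) ∈ V := ⟨1, one_ne_zero, γ, hγ, fun i => by simp⟩
    have h2 : φ (fun i => (γ i : ℚ)) = 0 := hφ2 h1
    have h3 := key γ
    rw [h2, mul_zero] at h3
    exact_mod_cast h3
  · have h3 := key δ
    rw [h] at h3
    simp only [Int.cast_zero] at h3
    rcases mul_eq_zero.1 h3.symm with h4 | h4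
    · exact hD (by exact_mod_cast h4)
    · exact hφ1 h4

/-! ### the subgroup of constant monomials -/

/-- the subgroup of multiplicative relations modulo constants, of degree zero -/
def relGroup {n : ℕ} (I : Finset (Fin (n + 1))) (u : Fin (n + 1) → ℂ → ℂ)
    (hu : ∀ i ∈ I, Nice (u i)) : AddSubgroup (Fin (n + 1) → ℤ) where
  carrier := {γ | (∀ i, i ∉ I → γ i = 0) ∧ ∑ i, γ i = 0 ∧ ∃ e : ℂ, e ≠ 0 ∧
    ∀ z, (∀ i ∈ I, dv (u i) z = 0) → ∏ i ∈ I, u i z ^ γ i = e}
  zero_mem' := ⟨fun _ _ => rfl, by simp, 1, one_ne_zero, fun z _ => by simp⟩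
  add_mem' := by
    rintro γ γ' ⟨h1, h2, e, he, h3⟩ ⟨h1', h2', e', he', h3'⟩
    refine ⟨fun i hi => by simp [h1 i hi, h1' i hi], ?_, e * e', mul_ne_zero he he', ?_⟩
    · simp only [Pi.add_apply, Finset.sum_add_distrib, h2, h2', add_zero]
    · intro z hz
      rw [← h3 z hz, ← h3' z hz, ← Finset.prod_mul_distrib]
      apply Finset.prod_congr rfl
      intro i hi
      rw [Pi.add_apply, zpow_add₀ (ne_zero_of_dv (hu i hi) (hz i hi))]
  neg_mem' := by
    rintro γ ⟨h1, h2, e, he, h3⟩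
    refine ⟨fun i hi => by simp [h1 i hi], ?_, e⁻¹, inv_ne_zero he, ?_⟩
    · simp only [Pi.neg_apply, Finset.sum_neg_distrib, h2, neg_zero]
    · intro z hz
      rw [← h3 z hz, ← Finset.prod_inv_distrib]
      apply Finset.prod_congr rfl
      intro i hi
      rw [Pi.neg_apply, zpow_neg]

/-- a meromorphic quotient with constant power is constant -/
lemma const_of_pow_const {n : ℕ} (I : Finset (Fin (n + 1))) (u : Fin (n + 1) → ℂ → ℂ)
    (hu : ∀ i ∈ I, Nice (u i)) {i j : Fin (n + 1)} (hi : i ∈ I) (hj : j ∈ I) {N : ℕ}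
    (hN : 0 < N) {e : ℂ}
    (h : ∀ z, (∀ i ∈ I, dv (u i) z = 0) → (u i z / u j z) ^ N = e) :
    ∃ e : ℂ, ∀ z, (∀ i ∈ I, dv (u i) z = 0) → u i z = e * u j z := by
  obtain ⟨z0, hz0⟩ := exists_good I hu
  have hai := analyticAt_of_dv (hu i hi) (hz0 i hi)
  have haj := analyticAt_of_dv (hu j hj) (hz0 j hj)
  have hj0 := ne_zero_of_dv (hu j hj) (hz0 j hj)
  have han : AnalyticAt ℂ (fun z => u i z / u j z) z0 := hai.div haj hj0
  have hgood := eventually_nhds_good I hu hz0
  -- locally constant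
  have hloc : ∀ᶠ z in 𝓝 z0, u i z / u j z = u i z0 / u j z0 := by
    rcases han.eventually_constant_or_nhds_le_map_nhds with h1 | h1
    · exact h1
    · exfalso
      have h2 : ∀ᶠ x in 𝓝 (u i z0 / u j z0), x ^ N = e := by
        apply h1
        rw [Filter.mem_map]
        filter_upwards [hgood] with z hz using h z hz
      have hfin : Set.Finite {x : ℂ | x ^ N = e} := by
        have : {x : ℂ | x ^ N = e} ⊆ {x | x ∈ (Polynomial.X ^ N - Polynomial.C e).roots} := by
          intro x hx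
          rw [Set.mem_ofPred_eq, Polynomial.mem_roots (Polynomial.X_pow_sub_C_ne_zero hN e)]
          simp only [Polynomial.IsRoot.def, Polynomial.eval_sub, Polynomial.eval_pow,
            Polynomial.eval_X, Polynomial.eval_C]
          rw [Set.mem_ofPred_eq] at hx
          rw [hx, sub_self]
        refine Set.Finite.subset ?_ this
        exact (Multiset.finite_toSet _)
      have h3 : {x : ℂ | x ^ N = e} ∈ 𝓝 (u i z0 / u j z0) := h2
      exact (infinite_of_mem_nhds (u i z0 / u j z0) h3) hfin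
  set ζ := u i z0 / u j z0 with hζ
  refine ⟨ζ, ?_⟩
  -- the difference
  have hmer : MeromorphicOn (fun z => u i z - ζ * u j z) Set.univ := fun z _ =>
    ((hu i hi).meromorphic z).fun_sub ((MeromorphicAt.const ζ z).fun_mul ((hu j hj).meromorphic z))
  have htop0 : meromorphicOrderAt (fun z => u i z - ζ * u j z) z0 = ⊤ := by
    rw [meromorphicOrderAt_eq_top_iff]
    apply Filter.Eventually.filter_mono nhdsWithin_le_nhds
    filter_upwards [hloc, hgood] with z hz hz'
    have hjz := ne_zero_of_dv (hu j hj) (hz' j hj)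
    rw [← hz]
    field_simp
    ring
  intro z hz
  have htop : meromorphicOrderAt (fun z => u i z - ζ * u j z) z = ⊤ := by
    by_contra hne
    exact hmer.meromorphicOrderAt_ne_top_of_isPreconnected isPreconnected_univ
      (Set.mem_univ z) (Set.mem_univ z0) hne htop0
  rw [meromorphicOrderAt_eq_top_iff] at htop
  have han : AnalyticAt ℂ (fun z => u i z - ζ * u j z) z :=
    (analyticAt_of_dv (hu i hi) (hz i hi)).sub
      (analyticAt_const.mul (analyticAt_of_dv (hu j hj) (hz j hj)))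
  have := (han.frequently_zero_iff_eventually_zero.1 htop.frequently).self_of_nhds
  exact sub_eq_zero.1 this

end BlockG

open BlockG in
/-- `u i`, `i ∈ I`, are the nonzero coordinates (up to a common factor) of an entire curve -/
theorem exists_weight_proof {n k m : ℕ} (hm : 0 < m) (hBC : BC k m)
    (I : Finset (Fin (n + 1))) (u : Fin (n + 1) → ℂ → ℂ) (hu : ∀ i ∈ I, Nice (u i))
    (hu0 : ∀ i, i ∉ I → ∀ z, u i z = 0)
    (S : Set (MvPolynomial (Fin (n + 1)) ℂ)) (hS : ∀ F ∈ S, ∃ d, F.IsHomogeneous d)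
    (hk : ∀ F ∈ S, F.support.card ≤ k)
    (hvan : ∀ F ∈ S, ∀ z, (∀ i ∈ I, dv (u i) z = 0) →
      MvPolynomial.eval (fun i => u i z ^ m) F = 0)
    (hnc : ∃ i ∈ I, ∃ j ∈ I, ¬ ∃ e : ℂ, ∀ z, (∀ i ∈ I, dv (u i) z = 0) → u i z = e * u j z) :
    ∃ (w : Fin (n + 1) → ℕ) (W : ℕ), 0 < W ∧ (∀ i, w i ≤ W) ∧ (∃ i ∈ I, w i = 0) ∧
      (∃ i ∈ I, w i = W) ∧ ∀ F ∈ S, ∀ z, (∀ i ∈ I, dv (u i) z = 0) → ∀ s t : ℂ,
        MvPolynomial.eval (fun i => (s ^ w i * t ^ (W - w i) * u i z) ^ m) F = 0 := by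
  obtain ⟨i0, hi0, j0, hj0, hne⟩ := hnc
  -- the functional
  have hδ : ∀ N : ℤ, N ≠ 0 → N • (Pi.single i0 1 - Pi.single j0 1 : Fin (n + 1) → ℤ) ∉
      relGroup I u hu := by
    rintro N hN ⟨-, -, e, he, h⟩
    have hij : i0 ≠ j0 := by
      rintro rfl
      exact hne ⟨1, fun z _ => by rw [one_mul]⟩
    have hquot : ∀ z, (∀ i ∈ I, dv (u i) z = 0) → (u i0 z / u j0 z) ^ N = e := by
      intro z hz
      rw [← h z hz, ← Finset.mul_prod_erase I _ hi0,
        ← Finset.mul_prod_erase (I.erase i0) _ (Finset.mem_erase.2 ⟨hij.symm, hj0⟩)]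
      rw [Finset.prod_eq_one]
      · simp [Pi.single_eq_of_ne hij, Pi.single_eq_of_ne hij.symm, div_eq_mul_inv, mul_zpow]
      · intro x hx
        rw [Finset.mem_erase, Finset.mem_erase] at hx
        simp [Pi.single_eq_of_ne hx.1, Pi.single_eq_of_ne hx.2.1]
    apply hne
    rcases lt_or_gt_of_ne hN with h1 | h1
    · refine const_of_pow_const I u hu hi0 hj0 (N := N.natAbs) (Int.natAbs_pos.2 hN)
        (e := e⁻¹) ?_
      intro z hz
      rw [← hquot z hz, ← zpow_natCast, ← zpow_neg]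
      congr 1
      omega
    · refine const_of_pow_const I u hu hi0 hj0 (N := N.natAbs) (Int.natAbs_pos.2 hN)
        (e := e) ?_
      intro z hz
      rw [← hquot z hz, ← zpow_natCast]
      congr 1
      omega
  obtain ⟨w', hw'1, hw'2⟩ := exists_functional _ _ hδ
  have hw'ne : w' i0 ≠ w' j0 := by
    intro h
    apply hw'2
    have h1 : ∀ i, w' i * (Pi.single i0 1 - Pi.single j0 1 : Fin (n + 1) → ℤ) i =
        w' i * (Pi.single i0 1 : Fin (n + 1) → ℤ) i -
          w' i * (Pi.single j0 1 : Fin (n + 1) → ℤ) i := by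
      intro i
      rw [Pi.sub_apply, mul_sub]
    rw [Finset.sum_congr rfl (fun i _ => h1 i), Finset.sum_sub_distrib]
    simp [Pi.single_apply, h]
  -- normalise
  obtain ⟨a, haI, ha⟩ := I.exists_min_image w' ⟨i0, hi0⟩
  let w : Fin (n + 1) → ℕ := fun i => if i ∈ I then (w' i - w' a).toNat else 0
  have hwI : ∀ i ∈ I, (w i : ℤ) = w' i - w' a := by
    intro i hi
    simp only [w, if_pos hi]
    exact Int.toNat_of_nonneg (sub_nonneg.2 (ha i hi))
  have hwO : ∀ i, i ∉ I → w i = 0 := by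
    intro i hi
    simp only [w, if_neg hi]
  obtain ⟨b, hbI, hb⟩ := I.exists_max_image w ⟨i0, hi0⟩
  have hle : ∀ i, w i ≤ w b := by
    intro i
    by_cases hi : i ∈ I
    · exact hb i hi
    · rw [hwO i hi]; exact Nat.zero_le _
  refine ⟨w, w b, ?_, hle, ⟨a, haI, ?_⟩, ⟨b, hbI, rfl⟩, ?_⟩
  · rw [Nat.pos_iff_ne_zero]
    intro h0
    apply hw'ne
    have h1 := hwI i0 hi0
    have h2 := hwI j0 hj0
    have h3 := hle i0
    have h4 := hle j0
    omega
  · have := hwI a haI
    omega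
  -- main vanishing
  intro F hF z hz s t
  obtain ⟨d, hd⟩ := hS F hF
  -- index set
  let A : Finset (Fin (n + 1) →₀ ℕ) := F.support.filter (fun α => α.support ⊆ I)
  have hAk : A.card ≤ k := (Finset.card_filter_le _ _).trans (hk F hF)
  let N : (Fin (n + 1) →₀ ℕ) → ℂ → ℂ := fun α => Mon I u (fun i => (α i : ℤ))
  have hN : ∀ α, Nice (N α) := fun α => nice_mon I hu _
  have hNapp : ∀ z, (∀ i ∈ I, dv (u i) z = 0) → ∀ α, N α z = ∏ i ∈ I, u i z ^ α i := by
    intro z hz α
    simp only [N]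
    rw [mon_apply I hu _ hz]
    simp only [zpow_natCast]
  -- evaluation formula
  have heval : ∀ (r : Fin (n + 1) → ℂ) (z : ℂ), (∀ i ∈ I, dv (u i) z = 0) →
      MvPolynomial.eval (fun i => (r i * u i z) ^ m) F =
        ∑ α ∈ A, (∏ i ∈ I, r i ^ α i) ^ m * (F.coeff α * N α z ^ m) := by
    intro r z hz
    rw [MvPolynomial.eval_eq']
    rw [← Finset.sum_filter_add_sum_filter_not F.support (fun α => α.support ⊆ I)]
    have h2 : ∑ α ∈ F.support.filter (fun α => ¬ α.support ⊆ I),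
        F.coeff α * ∏ i, ((r i * u i z) ^ m) ^ α i = 0 := by
      apply Finset.sum_eq_zero
      intro α hα
      rw [Finset.mem_filter, Finset.not_subset] at hα
      obtain ⟨i, hi, hiI⟩ := hα.2
      rw [Finsupp.mem_support_iff] at hi
      rw [Finset.prod_eq_zero (Finset.mem_univ i), mul_zero]
      rw [hu0 i hiI z, mul_zero, zero_pow hm.ne', zero_pow hi]
    rw [h2, add_zero]
    apply Finset.sum_congr rfl
    intro α hα
    rw [Finset.mem_filter] at hα
    have h3 : ∏ i, ((r i * u i z) ^ m) ^ α i = ∏ i ∈ I, ((r i * u i z) ^ m) ^ α i := by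
      symm
      apply Finset.prod_subset (Finset.subset_univ I)
      intro i _ hi
      have : α i = 0 := by
        by_contra h
        exact hi (hα.2 (Finsupp.mem_support_iff.2 h))
      rw [this, pow_zero]
    rw [h3, hNapp z hz, ← Finset.prod_pow, ← Finset.prod_pow]
    rw [mul_left_comm, ← Finset.prod_mul_distrib]
    congr 1
    apply Finset.prod_congr rfl
    intro i _
    rw [← pow_mul, ← pow_mul, ← pow_mul, mul_pow, mul_comm m]
  have hmain := merge hBC N hN (fun z => ∀ i ∈ I, dv (u i) z = 0) (eventually_good I hu)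
    (fun z hz α => dv_mon I hu _ hz)
    (fun α => (∏ i ∈ I, (s ^ w i * t ^ (w b - w i)) ^ α i) ^ m) A.card A rfl hAk
    (fun α => F.coeff α) ?_ ?_ z hz
  · rw [heval (fun i => s ^ w i * t ^ (w b - w i)) z hz]
    exact hmain
  · -- constant on related pairs
    rintro α hα β hβ ⟨e, he, hrel⟩
    rw [Finset.mem_filter] at hα hβ
    have hdα : ∑ i, α i = d := by
      have := hd (MvPolynomial.mem_support_iff.1 hα.1)
      rw [Finsupp.weight_apply, Finsupp.sum_fintype] at this
      · simpa using this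
      · intro i; simp
    have hdβ : ∑ i, β i = d := by
      have := hd (MvPolynomial.mem_support_iff.1 hβ.1)
      rw [Finsupp.weight_apply, Finsupp.sum_fintype] at this
      · simpa using this
      · intro i; simp
    have hα0 : ∀ i, i ∉ I → α i = 0 := by
      intro i hi
      by_contra h
      exact hi (hα.2 (Finsupp.mem_support_iff.2 h))
    have hβ0 : ∀ i, i ∉ I → β i = 0 := by
      intro i hi
      by_contra h
      exact hi (hβ.2 (Finsupp.mem_support_iff.2 h))
    have hγ : (fun i => (α i : ℤ) - β i) ∈ relGroup I u hu := by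
      refine ⟨fun i hi => by simp [hα0 i hi, hβ0 i hi], ?_, e, he, ?_⟩
      · rw [Finset.sum_sub_distrib]
        have h1 : ∑ i, (α i : ℤ) = d := by exact_mod_cast hdα
        have h2 : ∑ i, (β i : ℤ) = d := by exact_mod_cast hdβ
        rw [h1, h2, sub_self]
      · intro z hz
        have h1 := hrel z hz
        rw [hNapp z hz, hNapp z hz] at h1
        have h2 : ∏ i ∈ I, u i z ^ β i ≠ 0 := by
          rw [Finset.prod_ne_zero_iff]
          intro i hi
          exact pow_ne_zero _ (ne_zero_of_dv (hu i hi) (hz i hi))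
        have h3 : ∏ i ∈ I, u i z ^ ((α i : ℤ) - β i) =
            (∏ i ∈ I, u i z ^ α i) / ∏ i ∈ I, u i z ^ β i := by
          rw [← Finset.prod_div_distrib]
          apply Finset.prod_congr rfl
          intro i hi
          rw [zpow_sub₀ (ne_zero_of_dv (hu i hi) (hz i hi)), zpow_natCast, zpow_natCast]
        rw [h3, h1, mul_div_assoc, div_self h2, mul_one]
    have hsumw := hw'1 _ hγ
    have hsumw' : ∑ i ∈ I, w' i * ((α i : ℤ) - β i) = 0 := by
      rw [← hsumw]
      apply Finset.sum_subset (Finset.subset_univ I)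
      intro i _ hi
      simp [hα0 i hi, hβ0 i hi]
    have hdI : ∑ i ∈ I, ((α i : ℤ) - β i) = 0 := by
      rw [← hγ.2.1]
      apply Finset.sum_subset (Finset.subset_univ I)
      intro i _ hi
      simp [hα0 i hi, hβ0 i hi]
    have hsumI : ∑ i ∈ I, (w i : ℤ) * ((α i : ℤ) - β i) = 0 := by
      have h1 : ∑ i ∈ I, (w i : ℤ) * ((α i : ℤ) - β i) =
          ∑ i ∈ I, w' i * ((α i : ℤ) - β i) - w' a * ∑ i ∈ I, ((α i : ℤ) - β i) := by
        rw [Finset.mul_sum, ← Finset.sum_sub_distrib]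
        apply Finset.sum_congr rfl
        intro i hi
        rw [hwI i hi]; ring
      rw [h1, hsumw', hdI, mul_zero, sub_zero]
    have hsum1 : ∑ i ∈ I, w i * α i = ∑ i ∈ I, w i * β i := by
      have h1 : ∑ i ∈ I, (w i : ℤ) * α i - ∑ i ∈ I, (w i : ℤ) * β i = 0 := by
        rw [← Finset.sum_sub_distrib, ← hsumI]
        apply Finset.sum_congr rfl
        intro i _
        ring
      have h2 := sub_eq_zero.1 h1
      exact_mod_cast h2
    have hsum2 : ∑ i ∈ I, (w b - w i) * α i = ∑ i ∈ I, (w b - w i) * β i := by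
      have h1 : ∑ i ∈ I, ((w b - w i : ℕ) : ℤ) * α i - ∑ i ∈ I, ((w b - w i : ℕ) : ℤ) * β i
          = 0 := by
        rw [← Finset.sum_sub_distrib]
        have h3 : ∑ i ∈ I, (((w b - w i : ℕ) : ℤ) * α i - ((w b - w i : ℕ) : ℤ) * β i) =
            w b * ∑ i ∈ I, ((α i : ℤ) - β i) - ∑ i ∈ I, (w i : ℤ) * ((α i : ℤ) - β i) := by
          rw [Finset.mul_sum, ← Finset.sum_sub_distrib]
          apply Finset.sum_congr rfl
          intro i _
          rw [Nat.cast_sub (hle i)]; ring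
        rw [h3, hdI, hsumI]; ring
      have h2 := sub_eq_zero.1 h1
      exact_mod_cast h2
    simp only [mul_pow, Finset.prod_mul_distrib, ← pow_mul, Finset.prod_pow_eq_pow_sum]
    simp only [hsum1, hsum2]
  · intro z hz
    have h1 := heval (fun _ => 1) z hz
    simp only [one_pow, Finset.prod_const_one, one_mul] at h1
    rw [← h1]
    exact hvan F hF z hz

end LangFC
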